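import Mathlib
import Pool.Agent.H.MP_1f2de8_an.E
import Pool.Agent.H.MP_eccde5_an.A

set_option autoImplicit false

namespace Pool.Agent.H.MP_2482e1_an

open Filter Topology Metric Complex Finset PowerSeries Asymptotics
open scoped Real ComplexConjugate
open Pool.Agent.H.MP_7a60ac_an Pool.Agent.H.MP_0e1b7e_an Pool.Agent.H.MP_1f2de8_an

theorem co_zero (m : ℕ) : ∀ {f : ℂ → ℂ}, AnalyticAt ℂ f 0 → (f =o[𝓝[≠] 0] fun z => z ^ m) →
    X ^ (m + 1) ∣ ts f := by
  have key : ∀ (m : ℕ) {f : ℂ → ℂ}, AnalyticAt ℂ f 0 → (f =o[𝓝[≠] 0] fun z => z ^ m) → f 0 = 0 :=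
    fun m f hf h => tendsto_nhds_unique (hf.continuousAt.tendsto.mono_left nhdsWithin_le_nhds)
      ((isLittleO_one_iff ℂ).1 (h.trans_isBigO
        ((((continuous_pow m).tendsto 0).mono_left nhdsWithin_le_nhds).isBigO_one ℂ)))
  induction m with
  | zero => exact fun hf h => by simpa [X_dvd_iff, ts, co] using key 0 hf h
  | succ m ih =>
    intro f hf h
    obtain ⟨F, hF, e⟩ := hf.exists_eq_sum_add_pow_mul 1
    replace e : f = fun z => z * F z := funext fun z => by simpa [key _ hf h] using e z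
    rw [e, ts_mul (by fun_prop) hF, ts_id, pow_succ']
    refine mul_dvd_mul_left _ (ih hF ((h.mul_isBigO (isBigO_refl (fun z : ℂ => z⁻¹) _)).congr' ?_ ?_)) <;>
      filter_upwards [self_mem_nhdsWithin] with z (hz : z ≠ 0)
    · rw [e]; field_simp
    · field_simp; ring

variable {E : Type} [NormedAddCommGroup E] [InnerProductSpace ℂ E] {h : E → E} {u v : E}

theorem key (hd : DifferentiableOn ℂ h (ball 0 1)) (h0 : h 0 = 0)
    (hD : fderiv ℂ h 0 = ContinuousLinearMap.id ℂ E)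
    (hp : ∀ z ∈ ball (0 : E) 1, 0 ≤ (inner ℂ z (h z)).re) (hu : ‖u‖ = 1) (hv : ‖v‖ = 1) {r R : ℝ}
    (r0 : 0 ≤ r) (R0 : 0 < R) (hR : R ^ 2 = 1 + r ^ 2) (m : ℕ) :
    r * (co (fun t => inner ℂ v (h (t • u))) (m + 2)).re ≤ R ^ (m + 3) := by
  have b := ball_mem_nhds (0 : ℂ) one_pos
  have R1 : 1 ≤ R := by nlinarith
  have R0' : (R : ℂ) ≠ 0 := by exact_mod_cast R0.ne'
  obtain ⟨κ, hκ⟩ : ∃ κ : ℂ, κ = r * inner ℂ u v / R ^ 2 := ⟨_, rfl⟩
  obtain ⟨q, hq⟩ : ∃ q : ℂ → ℂ, q = fun z => 1 + -κ * z ^ (m + 1) := ⟨_, rfl⟩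
  obtain ⟨p, hp'⟩ : ∃ p : ℂ → E, p = fun z : ℂ => z • u - (r * z ^ (m + 2) : ℂ) • v := ⟨_, rfl⟩
  have n1 : ∀ z ∈ ball (0 : ℂ) 1, q z ≠ 0 ∧ ‖p z‖ ≤ ‖z‖ * (R * ‖q z‖) := fun z hz => by
    have η := pow_lt_one₀ (norm_nonneg z) (mem_ball_zero_iff.1 hz) m.succ_ne_zero
    rw [← norm_pow] at η
    have e : p z = z • (u - (r * z ^ (m + 1) : ℂ) • v) := by simp [hp', smul_sub, smul_smul]; ring_nf
    simp only [e, hq, norm_smul]
    generalize z ^ (m + 1) = η' at η
    have h1 : ‖κ‖ < 1 := by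
      have := norm_inner_le_norm (𝕜 := ℂ) u v
      rw [hκ, norm_div, norm_mul, norm_pow, norm_real, norm_real, Real.norm_of_nonneg r0,
        Real.norm_of_nonneg R0.le, div_lt_one (by positivity)]
      rw [hu, hv] at this
      nlinarith
    refine ⟨MP_1f2de8_an.n1 (by
      rw [norm_mul, norm_neg]; nlinarith [norm_nonneg κ, norm_nonneg η']), mul_le_mul_of_nonneg_left
      (le_of_sq_le_sq ?_ (by positivity)) (norm_nonneg _)⟩
    have e2 : (κ * η').re * R ^ 2 = (r * η' * inner ℂ u v).re := by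
      rw [← re_mul_ofReal, hκ]; congr 1; push_cast; field_simp
    rw [norm_sub_sq (𝕜 := ℂ), inner_smul_right, norm_smul, mul_pow R, ← normSq_eq_norm_sq (1 + _),
      normSq_add, hu, hv, norm_mul, norm_real, Real.norm_of_nonneg r0]
    simp only [RCLike.re_to_complex, one_mul, conj_re, neg_mul, neg_re, normSq_one]
    nlinarith [mul_nonneg (sq_nonneg R) (normSq_nonneg (-(κ * η'))), mul_nonneg (sq_nonneg r)
      (sub_nonneg.2 (pow_le_one₀ (n := 2) (norm_nonneg η') η.le))]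
  obtain ⟨φ, hφ⟩ : ∃ φ : ℂ → E, φ = fun z => ((R : ℂ)⁻¹ / q z) • p z := ⟨_, rfl⟩
  have mφ : ∀ z ∈ ball (0 : ℂ) 1, φ z ∈ ball (0 : E) 1 := fun z hz => by
    have := norm_pos_iff.2 (n1 z hz).1
    simp only [hφ, mem_ball_zero_iff, norm_smul, norm_div, norm_inv, norm_real,
      Real.norm_of_nonneg R0.le]
    refine lt_of_le_of_lt ?_ (mem_ball_zero_iff.1 hz)
    refine (mul_le_mul_of_nonneg_left (n1 z hz).2 (by positivity)).trans_eq (by field_simp)
  have dq : Differentiable ℂ q := by rw [hq]; fun_prop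
  have dp : Differentiable ℂ p := by rw [hp']; fun_prop
  have dφ : DifferentiableOn ℂ φ (ball 0 1) := hφ ▸
    (DifferentiableOn.div (by fun_prop) dq.differentiableOn fun z hz => (n1 z hz).1).smul
      dp.differentiableOn
  have di : ∀ (y : E) {f : ℂ → E}, DifferentiableOn ℂ f (ball 0 1) →
      DifferentiableOn ℂ (fun z => inner ℂ y (f z)) (ball 0 1) := fun y f hf =>
    (innerSL ℂ y).differentiable.comp_differentiableOn hf
  have mu : ∀ c : ℂ, ‖c‖ ≤ 1 → ∀ z ∈ ball (0 : ℂ) 1, (c * z) • u ∈ ball (0 : E) 1 := fun c hc z hz => by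
    simpa [norm_smul, hu] using mul_lt_one_of_nonneg_of_lt_one_right hc (norm_nonneg _)
      (mem_ball_zero_iff.1 hz)
  have l1 : ‖(R : ℂ)⁻¹‖ ≤ 1 := by simpa [abs_of_pos R0] using inv_le_one_of_one_le₀ R1
  have dF : ∀ y : E, DifferentiableOn ℂ (fun z => q z * inner ℂ y (h (φ z))) (ball 0 1) := fun y =>
    dq.differentiableOn.mul (di y (hd.comp dφ mφ))
  have dN : ∀ c : ℂ, ‖c‖ ≤ 1 → DifferentiableOn ℂ (fun z => h ((c * z) • u) - (c * z) • u) (ball 0 1) :=
    fun c hc => (hd.comp (by fun_prop) (mu c hc)).sub (by fun_prop)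
  have st := (hD ▸ MP_eccde5_an.strict isOpen_ball (mem_ball_self one_pos) hd).isLittleO
  have φ0 : φ 0 = 0 := by simp [hφ, hp']
  have cF : ∀ y : E, ∃ N : ℂ⟦X⟧, X ^ 2 ∣ N ∧
      coeff (m + 2) N = (R : ℂ)⁻¹ ^ (m + 2) * co (fun t => inner ℂ y (h (t • u))) (m + 2) ∧
      X ^ (m + 3) ∣ ts (fun z => q z * inner ℂ y (h (φ z))) - (C ((R : ℂ)⁻¹ * inner ℂ y u) * X +
        C (-((R : ℂ)⁻¹ * r * inner ℂ y v)) * X ^ (m + 2) + (1 + C (-κ) * X ^ (m + 1)) * N) := fun y => by
    have oi : ∀ {f : ℂ → E} {g : ℂ → ℂ}, f =o[𝓝[≠] 0] g →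
        (fun z => inner ℂ y (f z)) =o[𝓝[≠] 0] g := fun hf =>
      ((innerSL ℂ y).isBigO_comp _ _).trans_isLittleO hf
    have aN := fun c hc => (di y (dN c hc)).analyticAt b
    have tp : ∀ k (c : ℂ), ts (fun z => c * z ^ k) = C c * X ^ k := fun k c => by
      rw [ts_pow (by fun_prop), ts_const]
    refine ⟨ts fun z => inner ℂ y (h (((R : ℂ)⁻¹ * z) • u) - ((R : ℂ)⁻¹ * z) • u), ?_, ?_, ?_⟩
    · refine co_zero 1 (aN _ l1) (oi ?_)
      refine ((st.comp_tendsto (k := fun z : ℂ => (((R : ℂ)⁻¹ * z) • u, 0)) (l' := 𝓝[≠] 0)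
        ((Continuous.tendsto' (by fun_prop) _ _ (by simp)).mono_left nhdsWithin_le_nhds)).congr_left
        fun z => by simp [h0]).trans_isBigO (IsBigO.of_bound 1 (.of_forall fun z => ?_))
      simpa [norm_smul, hu, abs_of_pos R0] using
        mul_le_of_le_one_left (norm_nonneg z) (inv_le_one_of_one_le₀ R1)
    · have e := co_eq (ts_comp (aN 1 norm_one.le) (ω := fun z => (R : ℂ)⁻¹ * z) (by fun_prop) (by simp)
        (m + 3)) le_rfl
      rw [ts_cmul (f := fun z => z), ts_id, kx_co _ _ le_rfl, mul_comm] at e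
      simp only [one_mul] at e
      rw [e]; congr 1
      have e2 := ts_add (aN 1 norm_one.le) (g := fun z => inner ℂ y u * z ^ 1) (by fun_prop)
      rw [tp] at e2
      simpa [ts, inner_sub_right, inner_smul_right, mul_comm, coeff_X] using
        (congrArg (coeff (m + 2)) e2).symm
    · have aq := dq.analyticAt 0
      have aD := (di y (((hd.comp dφ mφ).sub dφ).sub (dN _ l1))).analyticAt b
      have o := co_zero (m + 2) aD (oi ?_)
      · have tq : 1 + C (-κ) * X ^ (m + 1) = ts q := by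
          rw [hq, ts_add (by fun_prop) (by fun_prop), tp, ts_const, map_one]
        rw [tq, ← tp, ← pow_one (X : ℂ⟦X⟧), ← tp, pow_one, ← ts_mul aq (aN _ l1),
          ← ts_add (by fun_prop) (by fun_prop), ← ts_add (by fun_prop) (aq.fun_mul (aN _ l1))]
        refine (o.mul_left (ts q)).trans (dvd_of_eq ?_)
        rw [eq_sub_iff_add_eq, ← ts_mul aq aD, ← ts_add (aq.fun_mul aD) (by have := aN _ l1; fun_prop)]
        refine ts_congr (mem_of_superset b fun z hz => ?_)
        have := (n1 z hz).1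
        simp only [Set.mem_ofPred_eq, Pi.sub_apply, Function.comp, inner_sub_right]
        simp only [hφ, hp', inner_smul_right, inner_sub_right]
        field_simp; ring
      refine ((st.comp_tendsto (k := fun z : ℂ => (φ z, ((R : ℂ)⁻¹ * z) • u)) (l' := 𝓝[≠] 0)
        (((φ0 ▸ (dφ.continuousOn.continuousAt b).tendsto).prodMk_nhds
        (Continuous.tendsto' (by fun_prop) _ _ (by simp))).mono_left nhdsWithin_le_nhds)).congr_left
        fun z => by simp; abel).trans_isBigO ?_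
      have c : ContinuousAt (fun z => ((R : ℂ)⁻¹ / q z) • (κ • u - (r : ℂ) • v)) 0 :=
        (continuousAt_const.div aq.continuousAt (by simp [hq])).smul continuousAt_const
      refine (((isBigO_refl (fun z : ℂ => z ^ (m + 2)) _).smul (c.isBigO_one ℂ)).congr' ?_
        (.of_forall fun z => by simp)).mono nhdsWithin_le_nhds
      filter_upwards [b] with z hz
      have := (n1 z hz).1
      simp only [Function.comp, hφ, hp', smul_sub, smul_smul]
      rw [sub_right_comm, ← sub_smul]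
      congr 2
      · field_simp; simp only [hq]; ring
      · ring
  have c1 : co (fun z => q z * inner ℂ u (h (φ z))) 1 = (R : ℂ)⁻¹ := by
    obtain ⟨N, ⟨N', rfl⟩, -, e⟩ := cF u
    have := co_eq e (k := 1) (by omega)
    rw [mul_left_comm, map_add, coeff_X_pow_mul', map_add, coeff_C_mul, coeff_C_mul] at this
    simpa [ts, coeff_X_pow, hu, inner_self_eq_norm_sq_to_K] using this
  have c2 : co (fun z => q z * inner ℂ v (h (φ z))) (m + 2) = -((R : ℂ)⁻¹ * r) +
      (R : ℂ)⁻¹ ^ (m + 2) * co (fun t => inner ℂ v (h (t • u))) (m + 2) := by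
    obtain ⟨N, e0, e1, e⟩ := cF v
    have := co_eq e le_rfl
    rw [add_mul, one_mul, mul_assoc (C (-κ)), map_add, map_add, map_add, e1, coeff_C_mul (a := -κ),
      coeff_X_pow_mul', if_pos (by omega), X_pow_dvd_iff.1 e0 _ (by omega), coeff_C_mul,
      coeff_C_mul] at this
    simpa [ts, coeff_X, hv, inner_self_eq_norm_sq_to_K] using this
  generalize co (fun t => inner ℂ v (h (t • u))) (m + 2) = w at c2
  have main : ∀ s ∈ Set.Ioo (0 : ℝ) 1,
      0 ≤ s ^ 2 * R⁻¹ - r * s ^ (2 * (m + 2)) * (-(R⁻¹ * r) + R⁻¹ ^ (m + 2) * w.re) := fun s hs => by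
    have hs' : ∀ z ∈ sphere (0 : ℂ) |s|, ‖z‖ = s := fun z hz => by simpa [abs_of_pos hs.1] using hz
    have z0 : ∀ z ∈ sphere (0 : ℂ) |s|, z ≠ 0 := fun z hz h => by
      have := hs' z hz; rw [h, norm_zero] at this; exact hs.1.ne this
    have zb : sphere (0 : ℂ) |s| ⊆ ball 0 1 := fun z hz => by simpa [hs' z hz] using hs.2
    have ci : ∀ (c : ℂ) (y : E) (j : ℕ), CircleIntegrable (fun z => c •
        (q z * inner ℂ y (h (φ z)) * z ^ 0 / z ^ j)) 0 s := fun c y j => by
      exact ContinuousOn.circleIntegrable' (((((dF y).continuousOn.mono zb).mul (by fun_prop)).div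
        (by fun_prop) fun z hz => pow_ne_zero _ (z0 z hz)).const_smul c)
    have e := Real.circleAverage_fun_add (ci (s ^ 2) u 1) (ci (-(r * s ^ (2 * (m + 2)))) v (m + 2))
    rw [Real.circleAverage_fun_smul, Real.circleAverage_fun_smul, avg (dF u) hs.1 hs.2,
      avg (dF v) hs.1 hs.2, if_pos (by omega), if_pos (by omega), Nat.sub_zero, Nat.sub_zero, c1, c2] at e
    replace e := congrArg reCLM e
    refine le_of_le_of_eq (Real.circleAverage_nonneg_of_nonneg fun z hz => ?_)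
      ((reCLM.circleAverage_comp_comm ((ci _ _ _).add (ci _ _ _))).trans (e.trans ?_))
    · have hc : conj z = s ^ 2 / z := by
        rw [eq_div_iff (z0 z hz), mul_comm, mul_conj, normSq_eq_norm_sq, hs' z hz]; simp
      have := mul_nonneg (mul_nonneg R0.le (normSq_nonneg (q z))) (hp _ (mφ z (zb hz)))
      refine this.trans_eq ?_
      have h1 := (map_ne_zero (starRingEnd ℂ)).2 (n1 z (zb hz)).1
      have h2 := z0 z hz
      rw [← re_ofReal_mul, ofReal_mul, ← mul_conj]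
      simp only [Function.comp, Pi.add_apply, reCLM_apply]
      congr 1
      generalize h (φ z) = y
      simp only [hφ, hp', inner_smul_left, inner_sub_left, map_div₀, map_inv₀, conj_ofReal, map_mul,
        map_pow, hc, smul_eq_mul, div_pow]
      field_simp; ring
    · simp [← ofReal_pow, ← ofReal_inv]; ring
  have lim := ge_of_tendsto (((by fun_prop : Continuous fun s : ℝ => s ^ 2 * R⁻¹ - r * s ^ (2 * (m + 2)) *
    (-(R⁻¹ * r) + R⁻¹ ^ (m + 2) * w.re)).tendsto 1).mono_left (nhdsWithin_le_nhds (s := Set.Iio 1)))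
    (mem_of_superset (Ioo_mem_nhdsLT one_pos) main)
  have := mul_nonneg (pow_nonneg R0.le (m + 2)) lim
  rw [← sub_nonneg]
  refine this.trans_eq ?_
  rw [inv_pow]; field_simp; linear_combination -R ^ (m + 2) * hR

end Pool.Agent.H.MP_2482e1_an
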